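import Mathlib
import Pool.Agent.X124.MV.Sharp2

/-!
# Vojta's inequality for points of degree at most two and almost every divisor

`X` is the projective line over `ℚ`, `S = {∞}`, `D = [α 0] + ... + [α (q - 1)]` with real points
`α j`. For almost every `α` (Lebesgue measure) we determine for which pairs `(κ, θ)`, `θ ≥ 0`,
the inequality `λ_D(x, ∞) ≤ κ h(x) + θ d(x) + O(1)` holds for all algebraic points `x` of degree
at most two: it holds if `κ > 2` and `κ + 2 θ > 3`, and it fails if `κ < 2` or `κ + 2 θ < 3`
(and `q ≥ 1`).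
Vojta's inequality is the case `κ = 2 + ε`, `θ = 1`; so for almost every `D` it holds, and
moreover with `d(x)` replaced by `(1 / 2 + δ) d(x)` (even by `d(x) / 2`), but not by
`(1 / 2 - δ) d(x)`.

Proof. The minimal polynomial `f = a X² + b X + c` of `x` with `|f(α)| ≤ t` restricts `α` to a
set of measure at most `C t / √Δ`, with `Δ = |b² - 4 a c|`; the sum over all `f` of height
about `2 ^ k`, weighted by the inverse square root of the squarefree part of the discriminant,
is bounded by `k ^ C`: for a product `Δ = t s²` one counts the `(b, c, a)` with `b² - 4 a c = ± t s²`.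
Pairs of two small values are treated with the measure of the set of pairs, triples
with a determinant. The sharpness is a pigeonhole argument, and the polynomials found by it are
irreducible because `α` is not very well approximable.
-/

set_option autoImplicit false

namespace Pool.Agent.Results.MP_71c16a_nt.AlmostEveryDivisor

open Polynomial IntermediateField MeasureTheory

/-- The absolute logarithmic height `(log M(f)) / deg f` of the roots of an irreducible primitive
`f` (`M` is the Mahler measure). -/
noncomputable def height (f : ℤ[X]) : ℝ :=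
  Real.log (f.map (Int.castRingHom ℂ)).mahlerMeasure / f.natDegree

/-- `λ_D(x, ∞)` for `D = ∑ [α j]`: the average over the conjugates `z` of `x`, i.e. the roots of
`f`, of `∑_j log (max(1,|z|) max(1,|α j|) / |z - α j|)`. -/
noncomputable def proximity {q : ℕ} (α : Fin q → ℝ) (f : ℤ[X]) : ℝ :=
  ((f.map (Int.castRingHom ℂ)).roots.map fun z =>
    ∑ j, Real.log (max 1 ‖z‖ * max 1 |α j| / ‖z - (α j : ℂ)‖)).sum / f.natDegree

open Classical in
/-- The logarithmic discriminant `d(x)` of the field `ℚ(x)`. -/
noncomputable def logDisc (x : ℂ) : ℝ :=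
  if _ : NumberField ℚ⟮x⟯ then
    Real.log |(NumberField.discr ℚ⟮x⟯ : ℝ)| / Module.finrank ℚ ℚ⟮x⟯ else 0

/-- `x` is an algebraic number of degree at most two with minimal polynomial `f` over `ℤ`. -/
def Pt (x : ℂ) (f : ℤ[X]) : Prop :=
  Irreducible f ∧ (f.natDegree = 1 ∨ f.natDegree = 2) ∧ aeval x f = 0

open Pool.Agent.X124.MV Pool.Agent.H990R4.VJ

lemma ne_pt {q : ℕ} {α : Fin q → ℝ} (h : Good α) (x : ℂ) (f : ℤ[X]) (hf : Pt x f) (j : Fin q) :
    x ≠ (α j : ℂ) := by
  obtain ⟨hirr, hd, hx⟩ := hf
  have hev : aeval (α j) f ≠ 0 := by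
    rcases hd with hd | hd
    · obtain ⟨C, hC⟩ := lin_pt h 1 one_pos
      exact (hC f hd).1 j
    · obtain ⟨C, hC⟩ := sum_quad h 1 one_pos
      rw [← ev_cu f hd.le]
      exact (hC (cu f) (not_sq hirr hd)).1 j
  intro h0
  apply hev
  rw [h0] at hx
  have h2 : aeval (α j : ℂ) f = ((aeval (α j) f : ℝ) : ℂ) := aeval_algebraMap_apply ℂ (α j) f
  rw [h2] at hx
  exact_mod_cast hx

/-- **Vojta's inequality for points of degree at most two on the line: almost every divisor.**
For almost every `α = (α 0, ..., α (q - 1))` in `ℝ ^ q` and all real `κ`, `θ` with `θ ≥ 0`: if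
`κ > 2` and `κ + 2 θ > 3`, then `λ_D(x, ∞) ≤ κ h(x) + θ d(x) + C` for all algebraic numbers `x` of
degree at most two (all of which are outside `D`), `C` not depending on `x`; if `q ≥ 1` and
`κ < 2` or `κ + 2 θ < 3`, then for every `C` this fails for points `x` of arbitrarily large
height. -/
theorem result (q : ℕ) : ∀ᵐ α : Fin q → ℝ, ∀ κ θ : ℝ, 0 ≤ θ →
    ((2 < κ → 3 < κ + 2 * θ → ∃ C : ℝ, ∀ (x : ℂ) (f : ℤ[X]), Pt x f →
      (∀ j, x ≠ (α j : ℂ)) ∧ proximity α f ≤ κ * height f + θ * logDisc x + C) ∧
    (1 ≤ q → (κ < 2 ∨ κ + 2 * θ < 3) → ∀ C H : ℝ, ∃ (x : ℂ) (f : ℤ[X]), Pt x f ∧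
      H ≤ height f ∧ κ * height f + θ * logDisc x + C < proximity α f)) := by
  filter_upwards [ae_good q] with α h κ θ hθ
  refine ⟨fun h1 h2 => ?_, fun hq hor C H => ?_⟩
  · set ε : ℝ := min (κ - 2) (κ + 2 * θ - 3) with hε
    have hε0 : 0 < ε := lt_min (by linarith) (by linarith)
    have hε1 : ε ≤ κ - 2 := min_le_left _ _
    have hε2 : ε ≤ κ + 2 * θ - 3 := min_le_right _ _
    obtain ⟨C1, hC1⟩ := quad_pt h ε hε0
    obtain ⟨C2, hC2⟩ := lin_pt h ε hε0
    refine ⟨|C1| + |C2| + Real.log 80, fun x f hf => ⟨ne_pt h x f hf, ?_⟩⟩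
    obtain ⟨hirr, hd, hx⟩ := hf
    have hL : 0 ≤ Real.log (mm f) := Real.log_nonneg (one_le_mm hirr.ne_zero)
    have hl80 : 0 ≤ Real.log 80 := Real.log_nonneg (by norm_num)
    have a1 := le_abs_self C1
    have a2 := le_abs_self C2
    have a3 := abs_nonneg C1
    have a4 := abs_nonneg C2
    have hlD : 0 ≤ lD x := lD_nonneg x
    rcases hd with hd | hd
    · have h3 := (hC2 f hd).2
      have h4 : height f = Real.log (mm f) := by
        unfold height mm
        rw [hd]; simp
      have h5 : proximity α f ≤ (2 + ε) * Real.log (mm f) + C2 := by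
        unfold proximity
        rw [hd, Nat.cast_one, div_one]
        exact h3
      have h6 : (2 + ε) * Real.log (mm f) ≤ κ * Real.log (mm f) :=
        mul_le_mul_of_nonneg_right (by linarith) hL
      have h7 : 0 ≤ θ * logDisc x := mul_nonneg hθ hlD
      rw [h4]
      linarith
    · have h3 := hC1 x f hirr hd hx
      have h4 : height f = Real.log (mm f) / 2 := by
        unfold height mm
        rw [hd]; simp
      have h5 : proximity α f ≤ ((2 + ε) * Real.log (mm f) + lD x + C1) / 2 := by
        unfold proximity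
        rw [hd]
        exact div_le_div_of_nonneg_right h3 (by norm_num)
      have h6 := lD_le f hirr hd x hx
      have h7 : lD x / 2 ≤ θ * lD x + max 0 (1 / 2 - θ) * (Real.log (mm f) + Real.log 80) := by
        rcases le_total (1 / 2 - θ) 0 with h8 | h8
        · rw [max_eq_left h8]
          nlinarith
        · rw [max_eq_right h8]
          nlinarith
      have h9 : (2 + ε) * (Real.log (mm f) / 2) + max 0 (1 / 2 - θ) * Real.log (mm f) ≤
          κ * (Real.log (mm f) / 2) := by
        rcases le_total (1 / 2 - θ) 0 with h8 | h8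
        · rw [max_eq_left h8]
          nlinarith
        · rw [max_eq_right h8]
          nlinarith
      have h10 : max 0 (1 / 2 - θ) * Real.log 80 ≤ Real.log 80 := by
        have : max 0 (1 / 2 - θ) ≤ 1 := max_le (by norm_num) (by linarith)
        nlinarith
      rw [h4]
      show proximity α f ≤ κ * (Real.log (mm f) / 2) + θ * lD x + _
      nlinarith
  · rcases hor with hκ | hκ
    · obtain ⟨C1, hC1⟩ := lin_sharp h ⟨0, by omega⟩
      obtain ⟨x, f, hirr, hd, hx, hR, hs⟩ := hC1 (max H ((C + C1) / (2 - κ) + 1))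
      have h4 : height f = Real.log (mm f) := by
        unfold height mm
        rw [hd]; simp
      have h5 : proximity α f = ((f.map (Int.castRingHom ℂ)).roots.map fun z =>
          ∑ j, Real.log (max 1 ‖z‖ * max 1 |α j| / ‖z - (α j : ℂ)‖)).sum := by
        unfold proximity
        rw [hd, Nat.cast_one, div_one]
      have h6 : logDisc x = 0 := lD_lin f hd x hx
      refine ⟨x, f, ⟨hirr, Or.inl hd, hx⟩, ?_, ?_⟩
      · rw [h4]; exact (le_max_left _ _).trans hR
      · rw [h4, h5, h6]
        refine lt_of_lt_of_le ?_ hs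
        have h7 : (C + C1) / (2 - κ) < Real.log (mm f) := by
          have := (le_max_right _ _).trans hR
          linarith
        rw [div_lt_iff₀ (by linarith)] at h7
        linarith
    · obtain ⟨C1, hC1⟩ := quad_sharp h ⟨0, by omega⟩
      obtain ⟨x, f, hirr, hd, hx, hR, hs⟩ := hC1 (max (2 * H)
        ((2 * (θ * Real.log 80) + 2 * C + C1) / (3 - (κ + 2 * θ)) + 1))
      have h4 : height f = Real.log (mm f) / 2 := by
        unfold height mm
        rw [hd]; simp
      have h5 : proximity α f = ((f.map (Int.castRingHom ℂ)).roots.map fun z =>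
          ∑ j, Real.log (max 1 ‖z‖ * max 1 |α j| / ‖z - (α j : ℂ)‖)).sum / 2 := by
        unfold proximity
        rw [hd, Nat.cast_ofNat]
      have h6 := lD_le f hirr hd x hx
      refine ⟨x, f, ⟨hirr, Or.inr hd, hx⟩, ?_, ?_⟩
      · rw [h4]
        have := (le_max_left _ _).trans hR
        linarith
      · rw [h4, h5]
        show κ * (Real.log (mm f) / 2) + θ * lD x + C < _
        have h7 : (2 * (θ * Real.log 80) + 2 * C + C1) / (3 - (κ + 2 * θ)) < Real.log (mm f) := by
          have := (le_max_right _ _).trans hR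
          linarith
        rw [div_lt_iff₀ (by linarith)] at h7
        have h8 : θ * lD x ≤ θ * (Real.log (mm f) + Real.log 80) :=
          mul_le_mul_of_nonneg_left h6 hθ
        nlinarith

end Pool.Agent.Results.MP_71c16a_nt.AlmostEveryDivisor
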