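import Mathlib
import Pool.Agent.X323.BD2

set_option autoImplicit false

/-!
# Vojta's conjecture for points of bounded degree: the plane with a conic and two lines

`X = ℙ²` over `ℚ`, `D` is the sum of the line `x_2 = 0`, the conic `x_0 x_1 = x_2 ^ 2` and any curve
`F = 0` through the point `(1 : 1 : 1)` of the conic, for example the line `x_0 = x_1`.
-/

namespace Pool.Agent.Results.MP_71c16a_nt.ConicAndTwoLinesDegree

open NumberField IsDedekindDomain

variable {L : Type} [Field L] [NumberField L]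

/-- The local Weil function of the curve `B = 0`, `B` a form of degree `d` over `ℤ`, at the point
with homogeneous coordinates `x` over `L`, for the absolute value `a` of `L`. -/
noncomputable def weil (a : L → ℝ) (B : MvPolynomial (Fin 3) ℤ) (d : ℕ) (x : Fin 3 → L) : ℝ :=
  Real.log ((⨆ j, a (x j)) ^ d / a (MvPolynomial.aeval x B))

/-- The proximity function `∑_{v ∈ S ∪ {∞}} λ_{D,v}(x)`, with absolute normalisation: the sum over
all infinite places of `L` and over the primes of `L` above the primes in `S`, divided by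
`[L : ℚ]`. -/
noncomputable def proximity (S : Finset ℕ) (B : MvPolynomial (Fin 3) ℤ) (d : ℕ)
    (x : Fin 3 → L) : ℝ :=
  ((∑ w : InfinitePlace L, w.mult * weil w B d x) +
    ∑ᶠ v ∈ {v : HeightOneSpectrum (𝓞 L) | ∃ p ∈ S, (p : 𝓞 L) ∈ v.asIdeal},
      weil (FinitePlace.mk v) B d x) / Module.finrank ℚ L

/-- The absolute logarithmic height. -/
noncomputable def height (x : Fin 3 → L) : ℝ :=
  Height.logHeight x / Module.finrank ℚ L

/-- The form of `D`: the line `x_2 = 0`, the conic `x_0 x_1 = x_2 ^ 2` and the curve `F = 0`. -/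
noncomputable def divisor (F : MvPolynomial (Fin 3) ℤ) : MvPolynomial (Fin 3) ℤ :=
  MvPolynomial.X 2 * (MvPolynomial.X 0 * MvPolynomial.X 1 - MvPolynomial.X 2 ^ 2) * F

/-- The plane with `D` = the line `x_2 = 0` + the conic `x_0 x_1 = x_2 ^ 2` + any curve `F = 0` of
degree `d` through `(1 : 1 : 1)`, for example the line `x_0 = x_1`; `S` is a nonempty set of primes.
Suppose that Vojta's inequality `∑_{v ∈ S ∪ {∞}} λ_{D,v}(x) + h_K(x) - d(L) ≤ ε h(x) + C`, where
`h_K = -3 h`, holds for all number fields `L` of degree at most `r` and all `x ∈ ℙ²(L)` off `D` and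
off the curve `G = 0` of degree `δ`. Then for every `k` with `ε k < 1` and every number field `K` of
degree at most `r`, the polynomial `X ^ k - 1` has at most `2 (δ + d)` monic divisors over `K`; in
particular `2 ^ k ≤ 2 (δ + d)` if `φ(k) ≤ r`. -/
theorem result (d : ℕ) (F : MvPolynomial (Fin 3) ℤ) (hF : F.IsHomogeneous d) (hF0 : F ≠ 0)
    (hF1 : MvPolynomial.eval (fun _ => (1 : ℤ)) F = 0)
    (S : Finset ℕ) (hS : ∀ p ∈ S, p.Prime) (hSne : S.Nonempty)
    (δ : ℕ) (G : MvPolynomial (Fin 3) ℚ) (hG : G.IsHomogeneous δ) (hG0 : G ≠ 0)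
    (ε C : ℝ) (hε : 0 < ε) (r : ℕ)
    (hV : ∀ (L : Type) [Field L] [NumberField L], Module.finrank ℚ L ≤ r →
      ∀ x : Fin 3 → L, x ≠ 0 → MvPolynomial.aeval x (divisor F) ≠ 0 →
        MvPolynomial.aeval x G ≠ 0 →
        proximity S (divisor F) (d + 3) x + -3 * height x -
          Real.log |(discr L : ℝ)| / Module.finrank ℚ L ≤ ε * height x + C)
    (k : ℕ) (hk : 1 ≤ k) (hεk : ε * k < 1) :
    (∀ (K : Type) [Field K] [NumberField K], Module.finrank ℚ K ≤ r →
      ∀ Ps : Finset (Polynomial K), (∀ P ∈ Ps, P.Monic ∧ P ∣ Polynomial.X ^ k - 1) →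
        Ps.card ≤ 2 * (δ + d)) ∧
    (k.totient ≤ r → 2 ^ k ≤ 2 * (δ + d)) := by
  classical
  obtain ⟨q, hqS⟩ := hSne
  have hqp := hS q hqS
  have main : ∀ (K : Type) [Field K] [NumberField K], Module.finrank ℚ K ≤ r →
      ∀ Ps : Finset (Polynomial K), (∀ P ∈ Ps, P.eval 0 = 1 ∧ P ∣ 1 - Polynomial.X ^ k) →
        Ps.card ≤ 2 * (δ + d) := by
    intro K _ _ hr Ps hPs
    set H : MvPolynomial (Fin 3) K := MvPolynomial.map (algebraMap ℤ K) F *
      MvPolynomial.map (algebraMap ℚ K) G with hH
    have hH0 : H ≠ 0 := by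
      refine mul_ne_zero (fun h => hF0 ?_) (fun h => hG0 ?_)
      · exact MvPolynomial.map_injective _ (RingHom.injective_int _) (by rw [h, map_zero])
      · exact MvPolynomial.map_injective _ (algebraMap ℚ K).injective (by rw [h, map_zero])
    have hHhom : H.IsHomogeneous (δ + d) := by
      rw [add_comm]
      exact (hF.map _).mul (hG.map _)
    refine Pool.Agent.X323.BD.count (AlgebraicClosure K) hk H hH0 hHhom Ps fun P hP => ?_
    obtain ⟨hP0, Q, hPQ⟩ := hPs P hP
    refine ⟨Q, hPQ.symm, ?_⟩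
    by_contra hne
    have hk0 : k ≠ 0 := by omega
    have h1X : (1 - Polynomial.X ^ k : Polynomial K) ≠ 0 := by
      intro h
      have := congrArg (Polynomial.eval 0) h
      simp [hk0] at this
    have hQ0 : Q.eval 0 = 1 := by
      have := congrArg (Polynomial.eval 0) hPQ
      rw [Polynomial.eval_mul, hP0, one_mul] at this
      simpa [hk0] using this.symm
    have hdegX : (1 - Polynomial.X ^ k : Polynomial K).natDegree ≤ k := by
      refine (Polynomial.natDegree_sub_le _ _).trans ?_
      simp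
    have hPk : P.natDegree ≤ k :=
      (Polynomial.natDegree_le_of_dvd ⟨Q, hPQ⟩ h1X).trans hdegX
    have hQk : Q.natDegree ≤ k :=
      (Polynomial.natDegree_le_of_dvd ⟨P, by rw [hPQ, mul_comm]⟩ h1X).trans hdegX
    obtain ⟨A, hA1, hA⟩ := Pool.Agent.X323.BD.height_le hPk hQk
    have hnz := Pool.Agent.X323.BD.eventually_ne' hqp.two_le _ hne
    set Lf : ℝ := ∑ m ∈ F.support, |((F.coeff m : ℤ) : ℝ)| with hLf
    set W : ℝ := (Height.totalWeight K : ℝ) with hW
    have hWn : W = (Module.finrank ℚ K : ℝ) := Pool.Agent.W231.G.weight_eq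
    have hWpos : 0 < W := by
      rw [hWn]
      exact_mod_cast Module.finrank_pos
    -- the inequality
    have hkey : ∀ n : ℕ, (MvPolynomial.eval₂ (Polynomial.C : K →+* Polynomial K)
        (![P, Q, 1] : Fin 3 → Polynomial K) H).eval ((q ^ n : ℕ) : K) ≠ 0 →
        (1 - ε * k) * Real.log ((q ^ n : ℕ) : ℝ) ≤
          Real.log Lf + Real.log |(discr K : ℝ)| / W + ε * Real.log A + C := by
      intro n hn
      have ht1 : 1 ≤ q ^ n := Nat.one_le_iff_ne_zero.2 (pow_ne_zero _ hqp.ne_zero)
      obtain ⟨a, a', ha, ha'⟩ := Pool.Agent.X323.BD.vals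
        (Pool.Agent.X323.BD.ints hk hP0 hPQ.symm) hP0 (q ^ n)
      obtain ⟨b, b', hb, hb'⟩ := Pool.Agent.X323.BD.vals
        (Pool.Agent.X323.BD.ints hk hQ0 (by rw [mul_comm]; exact hPQ.symm)) hQ0 (q ^ n)
      set x := Pool.Agent.X323.BD.pnt a b with hx
      have hev : (MvPolynomial.eval₂ (Polynomial.C : K →+* Polynomial K)
          (![P, Q, 1] : Fin 3 → Polynomial K) H).eval ((q ^ n : ℕ) : K) =
          MvPolynomial.aeval x F * MvPolynomial.aeval x G := by
        have h2 := MvPolynomial.hom_eval₂ H (Polynomial.C : K →+* Polynomial K)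
          (Polynomial.evalRingHom ((q ^ n : ℕ) : K)) (![P, Q, 1] : Fin 3 → Polynomial K)
        rw [Polynomial.coe_evalRingHom] at h2
        rw [h2]
        have h3 : (Polynomial.evalRingHom ((q ^ n : ℕ) : K)).comp
            (Polynomial.C : K →+* Polynomial K) = RingHom.id K := by ext; simp
        have h4 : (Polynomial.eval ((q ^ n : ℕ) : K) ∘ (![P, Q, 1] : Fin 3 → Polynomial K)) = x := by
          funext i
          fin_cases i
          · exact ha.symm
          · exact hb.symm
          · simp [hx, Pool.Agent.X323.BD.pnt]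
        have h5 : MvPolynomial.eval₂ (RingHom.id K) x H = MvPolynomial.eval x H := rfl
        rw [h3]
        change MvPolynomial.eval₂ (RingHom.id K)
          (Polynomial.eval ((q ^ n : ℕ) : K) ∘ (![P, Q, 1] : Fin 3 → Polynomial K)) H = _
        rw [h4, h5, hH, map_mul, MvPolynomial.eval_map, MvPolynomial.eval_map,
          MvPolynomial.aeval_def, MvPolynomial.aeval_def]
      rw [hev] at hn
      have hFx := left_ne_zero_of_mul hn
      have hGx := right_ne_zero_of_mul hn
      have habK : (a : K) * b = 1 - ((q ^ n : ℕ) : K) ^ k := by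
        rw [ha, hb, ← Polynomial.eval_mul, ← hPQ]
        simp
      have hab : a * b = 1 - ((q ^ n : ℕ) : 𝓞 K) ^ k := by
        apply NumberField.RingOfIntegers.ext
        change algebraMap (𝓞 K) K (a * b) = algebraMap (𝓞 K) K _
        rw [map_mul, map_sub, map_pow, map_one, map_natCast]
        exact habK
      have htK : ((q ^ n : ℕ) : K) ≠ 0 := Nat.cast_ne_zero.2 (pow_ne_zero _ hqp.ne_zero)
      have hDx : MvPolynomial.aeval x (divisor F) ≠ 0 := by
        have e2 : x 0 = (a : K) := rfl
        have e3 : x 1 = (b : K) := rfl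
        have e4 : x 2 = (1 : K) := rfl
        unfold divisor
        simp only [map_mul, map_sub, map_pow, MvPolynomial.aeval_X, e2, e3, e4, habK]
        refine mul_ne_zero (mul_ne_zero one_ne_zero ?_) hFx
        have : (1 - ((q ^ n : ℕ) : K) ^ k - 1 ^ 2 : K) = -((q ^ n : ℕ) : K) ^ k := by ring
        rw [this]
        exact neg_ne_zero.2 (pow_ne_zero _ htK)
      have h1 := hV K hr x (Pool.Agent.X323.BD.pnt_ne a b) hDx hGx
      have h2 := Pool.Agent.X323.BD.key hF hF1 hS hqS n k a b a' b' ha' hb' hab hFx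
      have h3 := hA (q ^ n) a b ht1 ha hb
      have hprox : proximity S (divisor F) (d + 3) x =
          ((∑ w : InfinitePlace K, (w.mult : ℝ) * Real.log ((⨆ j, w (x j)) ^ (d + 3) /
              w (MvPolynomial.aeval x (Pool.Agent.X323.BD.divi F)))) +
            ∑ᶠ v ∈ {v : HeightOneSpectrum (𝓞 K) | ∃ p ∈ S, (p : 𝓞 K) ∈ v.asIdeal},
              Real.log ((⨆ j, Pool.Agent.W231.V.fv v (x j)) ^ (d + 3) /
                Pool.Agent.W231.V.fv v (MvPolynomial.aeval x (Pool.Agent.X323.BD.divi F)))) / W := by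
        rw [hWn]
        rfl
      rw [hprox, height, ← hWn] at h1
      rw [← hLf, ← hW] at h2
      set Sum : ℝ := (∑ w : InfinitePlace K, (w.mult : ℝ) * Real.log ((⨆ j, w (x j)) ^ (d + 3) /
              w (MvPolynomial.aeval x (Pool.Agent.X323.BD.divi F)))) +
            ∑ᶠ v ∈ {v : HeightOneSpectrum (𝓞 K) | ∃ p ∈ S, (p : 𝓞 K) ∈ v.asIdeal},
              Real.log ((⨆ j, Pool.Agent.W231.V.fv v (x j)) ^ (d + 3) /
                Pool.Agent.W231.V.fv v (MvPolynomial.aeval x (Pool.Agent.X323.BD.divi F))) with hSum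
      set hh := Height.logHeight x with hhh
      have h2' : 3 * (hh / W) + (Real.log ((q ^ n : ℕ) : ℝ) - Real.log Lf) ≤ Sum / W := by
        rw [le_div_iff₀ hWpos]
        have : (3 * (hh / W) + (Real.log ((q ^ n : ℕ) : ℝ) - Real.log Lf)) * W =
            3 * hh + W * (Real.log ((q ^ n : ℕ) : ℝ) - Real.log Lf) := by
          field_simp
        rw [this]
        exact h2
      have h3' : hh / W ≤ Real.log A + k * Real.log ((q ^ n : ℕ) : ℝ) := by
        rw [div_le_iff₀ hWpos, mul_comm]
        exact h3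
      have h4 := mul_le_mul_of_nonneg_left h3' hε.le
      nlinarith [h1, h2', h4]
    have hlim : Filter.Tendsto (fun n : ℕ => ((q ^ n : ℕ) : ℝ)) Filter.atTop Filter.atTop :=
      tendsto_natCast_atTop_atTop.comp (tendsto_pow_atTop_atTop_of_one_lt hqp.one_lt)
    have hlog : Filter.Tendsto (fun n : ℕ => Real.log ((q ^ n : ℕ) : ℝ)) Filter.atTop
        Filter.atTop := Real.tendsto_log_atTop.comp hlim
    have hpos : 0 < 1 - ε * k := by linarith
    obtain ⟨n, hn1, hn2⟩ := (hnz.and (hlog.eventually_gt_atTop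
      ((Real.log Lf + Real.log |(discr K : ℝ)| / W + ε * Real.log A + C) / (1 - ε * k)))).exists
    have h7 := hkey n hn1
    rw [div_lt_iff₀ hpos] at hn2
    linarith
  refine ⟨fun K _ _ hr Ps hPs => ?_, fun hr => ?_⟩
  · obtain ⟨Ps', hc, h⟩ := Pool.Agent.W231.G.family_monic (m := k) hk Ps fun P hP => by
      refine ⟨(hPs P hP).1, (hPs P hP).2, ?_⟩
      have h1 : (Polynomial.X ^ k - 1 : Polynomial K).natDegree = k := by
        have := Polynomial.natDegree_X_pow_sub_C (n := k) (r := (1 : K))
        simpa using this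
      have h2 : (Polynomial.X ^ k - 1 : Polynomial K) ≠ 0 := by
        intro h
        rw [h, Polynomial.natDegree_zero] at h1
        omega
      exact (Polynomial.natDegree_le_of_dvd (hPs P hP).2 h2).trans h1.le
    rw [← hc]
    exact main K hr Ps' fun P hP => ⟨(h P hP).1, (h P hP).2.1⟩
  · have : NeZero k := ⟨by omega⟩
    have : NeZero ((k : ℕ) : ℚ) := ⟨by exact_mod_cast (by omega : k ≠ 0)⟩
    set K := CyclotomicField k ℚ with hK
    have hcyc : IsCyclotomicExtension {k} ℚ K := by
      have h : @IsCyclotomicExtension {k} ℚ (CyclotomicField k ℚ) _ _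
        (CyclotomicField.algebra k ℚ) := inferInstance
      convert h
      exact Subsingleton.elim _ _
    have hζ : IsPrimitiveRoot (IsCyclotomicExtension.zeta k ℚ K) k :=
      IsCyclotomicExtension.zeta_spec k ℚ K
    have hfr : Module.finrank ℚ K = k.totient :=
      IsCyclotomicExtension.finrank K (Polynomial.cyclotomic.irreducible_rat (by omega))
    obtain ⟨Ps, hc, h⟩ := Pool.Agent.W231.G.family_root (m := k) hk hζ
    rw [Nat.sum_range_choose] at hc
    rw [← hc]
    exact main K (by rw [hfr]; exact hr) Ps fun P hP => ⟨(h P hP).1, (h P hP).2.1⟩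

end Pool.Agent.Results.MP_71c16a_nt.ConicAndTwoLinesDegree
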