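import Mathlib
import Pool.Agent.X124.MD.Low2

/-!
# The dimension of the divisors that violate Vojta's inequality

`X` is the projective line over `ℚ`, `S = {∞}`, `D = [α]` with a real point `α`, and we consider
points of degree at most two. For `κ > 0` and `θ ≥ 0` the set of the `α` for which
`λ_α(x, ∞) ≤ κ h(x) + θ d(x) + O(1)` fails has Hausdorff dimension
`min (1, max (2 / κ, 3 / (κ + 2 θ)))`. So the `α` that violate Vojta's inequality, `κ = 2 + ε` and
`θ = 1`, form a set of dimension `2 / (2 + ε)` if `ε ≤ 2`, which is the dimension for rational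
points alone (theorem of Jarník and Besicovitch), and of dimension `3 / (4 + ε)` if `ε ≥ 2`.

Proof. Upper bound: Hausdorff-Cantelli; the number of quadratic polynomials of height `H` with a
given discriminant is at most `H ^ (1 + δ)`, and one has to sum over the discriminants
`t s²` the `s`-th powers of the lengths of the intervals, which depend on `t` and on `t s²`.
Lower bound: almost every number is within `X ^ (-3 + δ)` of quadratic numbers of height at most
`X` (and within `X ^ (-2 + δ)` of rational numbers) for all large `X`, because polynomials of small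
discriminant have no very small values almost everywhere; so these numbers contain many well
spaced points, and a Cantor set is constructed from them.
-/

set_option autoImplicit false

namespace Pool.Agent.Results.MP_71c16a_nt.DimensionOfExceptions

open Polynomial IntermediateField MeasureTheory

/-- The absolute logarithmic height `(log M(f)) / deg f` of the roots of an irreducible primitive
`f` (`M` is the Mahler measure). -/
noncomputable def height (f : ℤ[X]) : ℝ :=
  Real.log (f.map (Int.castRingHom ℂ)).mahlerMeasure / f.natDegree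

/-- `λ_α(x, ∞)`: the average over the conjugates `z` of `x`, i.e. the roots of `f`, of
`log (max(1,|z|) max(1,|α|) / |z - α|)`. -/
noncomputable def proximity (α : ℝ) (f : ℤ[X]) : ℝ :=
  ((f.map (Int.castRingHom ℂ)).roots.map fun z =>
    Real.log (max 1 ‖z‖ * max 1 |α| / ‖z - (α : ℂ)‖)).sum / f.natDegree

open Classical in
/-- The logarithmic discriminant `d(x)` of the field `ℚ(x)`. -/
noncomputable def logDisc (x : ℂ) : ℝ :=
  if _ : NumberField ℚ⟮x⟯ then
    Real.log |(NumberField.discr ℚ⟮x⟯ : ℝ)| / Module.finrank ℚ ℚ⟮x⟯ else 0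

/-- `x` is an algebraic number of degree at most two with minimal polynomial `f` over `ℤ`. -/
def Pt (x : ℂ) (f : ℤ[X]) : Prop :=
  Irreducible f ∧ (f.natDegree = 1 ∨ f.natDegree = 2) ∧ aeval x f = 0

/-- The real `α` for which `λ_α(x, ∞) ≤ κ h(x) + θ d(x) + O(1)` does not hold for all points `x`
of degree at most two. -/
def Exceptions (κ θ : ℝ) : Set ℝ :=
  {α | ¬ ∃ C : ℝ, ∀ (x : ℂ) (f : ℤ[X]), Pt x f →
    proximity α f ≤ κ * height f + θ * logDisc x + C}

/-- **The dimension of the exceptional set in Vojta's inequality for points of degree at most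
two.** For `κ > 0` and `θ ≥ 0` it is `min (1, max (2 / κ, 3 / (κ + 2 θ)))`. -/
theorem result (κ θ : ℝ) (hκ : 0 < κ) (hθ : 0 ≤ θ) :
    dimH (Exceptions κ θ) = ENNReal.ofReal (min 1 (max (2 / κ) (3 / (κ + 2 * θ)))) := by
  rw [← Pool.Agent.X124.MD.dim_eq κ θ hκ hθ]
  congr 1
  ext α
  unfold Exceptions Pool.Agent.X124.MD.Exc
  simp only [Set.mem_ofPred_eq]
  push Not
  refine forall_congr' fun C => ?_
  constructor
  · rintro ⟨x, f, ⟨h1, h2, h3⟩, h4⟩
    exact ⟨x, f, h1, h2, h3, h4⟩
  · rintro ⟨x, f, h1, h2, h3, h4⟩
    exact ⟨x, f, ⟨h1, h2, h3⟩, h4⟩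

end Pool.Agent.Results.MP_71c16a_nt.DimensionOfExceptions
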