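import Pool.Agent.X22.NS

/-!
# Almost all members `D Y ^ 2 = h (X) + m` of arbitrarily thin families of hyperelliptic curves have no algebraic points of bounded degree over the
field of their abscissa, up to a height of the size of the coefficients

Nothing is used besides Mathlib in the statement.
-/

set_option autoImplicit false

namespace Pool.Agent.Results.MP_71c16a_nt.FewDigitCurvesNoPoints

open Finset NumberField IsDedekindDomain Module

/-- The digit number `i` (counted from the right, beginning with `0`) of `n` in base `b`. -/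
def digit (b i n : ℕ) : ℕ := n / b ^ i % b

/-- The number which arises from the number `N` with at most `K` digits in base `b`, if for every `i ∈ S`
the digit number `i` is replaced by `f i`. -/
def change (b K N : ℕ) (f : ℕ → ℕ) (S : Finset ℕ) : ℕ :=
  ∑ i ∈ range K, (if i ∈ S then f i else digit b i N) * b ^ i

open Classical in
/-- The number of the choices of `r` of `K` positions for which the number obtained by
changing the digits of `N` at the chosen positions (according to `f`) does not have the property `E`. -/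
noncomputable def exceptions (b K r N : ℕ) (f : ℕ → ℕ) (E : ℕ → Prop) : ℕ :=
  ((powersetCard r (range K)).filter (fun S => ¬ E (change b K N f S))).card

/-- The number of the places of degree one of the number field `F` of norm at most `x`, at which the algebraic integer `a` is a unit. -/
noncomputable def unitPlaces {F : Type} [Field F] [NumberField F] (x : ℕ) (a : 𝓞 F) : ℕ :=
  {w : HeightOneSpectrum (𝓞 F) | Ideal.absNorm w.asIdeal ≤ x ∧ (Ideal.absNorm w.asIdeal).Prime ∧ a ∉ w.asIdeal}.ncard

open Pool.Agent.X22.NF (pr mem_pr)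

/-- the homogenised value -/
noncomputable def hom {F : Type} [Field F] [NumberField F] (h : Polynomial (𝓞 F)) (u v : 𝓞 F) : 𝓞 F :=
  ∑ j ∈ range (h.natDegree + 1), h.coeff j * u ^ j * v ^ (h.natDegree - j)

lemma hom_eq {F : Type} [Field F] [NumberField F] (h : Polynomial (𝓞 F)) (u v : 𝓞 F) (hv : (v : F) ≠ 0) :
    ((hom h u v : 𝓞 F) : F) = (v : F) ^ h.natDegree * Polynomial.aeval ((u : F) / (v : F)) h := by
  unfold hom
  simp only [RingOfIntegers.coe_eq_algebraMap] at hv ⊢
  rw [Polynomial.aeval_eq_sum_range, mul_sum, map_sum]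
  apply sum_congr rfl
  intro j hj
  rw [mem_range] at hj
  have h1 : h.natDegree = (h.natDegree - j) + j := by omega
  rw [map_mul, map_mul, map_pow, map_pow, Algebra.smul_def, div_pow]
  have h2 : (algebraMap (𝓞 F) F v) ^ h.natDegree = (algebraMap (𝓞 F) F v) ^ (h.natDegree - j) * (algebraMap (𝓞 F) F v) ^ j := by
    rw [← pow_add, ← h1]
  rw [h2]
  have h3 : (algebraMap (𝓞 F) F v) ^ j ≠ 0 := pow_ne_zero j hv
  field_simp

/-- **Curves without points of bounded degree.** Let a base `b ≥ 2`, integers `n₀ ≥ 1`, `A ≥ 0` and `η > 0` be given. There are `c > 0` and `y₀` such that for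
all integers `r`, `K`, `y` with `2 r ≤ K` and `y ≥ y₀` the following holds.

Let `0 ≤ N < b ^ K` be an arbitrary integer, prescribe for every position `j` a digit `g j` different from the digit of
`N` in base `b`, and let `Λ x` be for every `x` any set of at most `x ^ A` systems `(F i, h i, u i, v i, D i)` of a number field of degree at most `n₀`, a
polynomial `h i` with integral coefficients in `F i` and integers `u i`, `v i`, `D i` of `F i`, such that `F i` has at least `x ^ η` places of degree one of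
norm at most `x` at which `2 v i D i` is a unit.
If one chooses `r` of the `K` positions and replaces the digits of `N` at these positions, then for all but at most a proportion
`1 / y ^ A` of the choices the number `m` obtained has the following property: for all integers `x` with
`y ≤ x ≤ exp (c r)` and all `i ∈ Λ x` the curve `D i Y ^ 2 = h i (X) + m` has no point over `F i` with the abscissa `X = u i / v i`. -/
theorem result (b n₀ : ℕ) (hb : 2 ≤ b) (η : ℝ) (hη : 0 < η) (A : ℕ) :
    ∃ c : ℝ, 0 < c ∧ ∃ y₀ : ℕ,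
    ∀ K r y : ℕ, 2 * r ≤ K → y₀ ≤ y →
    ∀ N : ℕ, N < b ^ K → ∀ g : ℕ → ℕ, (∀ j, g j < b ∧ g j ≠ digit b j N) →
    ∀ (κ : Type) (F : κ → Type) [∀ i, Field (F i)] [∀ i, NumberField (F i)] (h : ∀ i, Polynomial (𝓞 (F i))) (u v D : ∀ i, 𝓞 (F i))
      (Λ : ℕ → Finset κ), (∀ x, (Λ x).card ≤ x ^ A) → (∀ x, ∀ i ∈ Λ x, finrank ℚ (F i) ≤ n₀) →
      (∀ x, ∀ i ∈ Λ x, (x : ℝ) ^ η ≤ unitPlaces x (2 * v i * D i)) →
      (exceptions b K r N g (fun m => ∀ x : ℕ, y ≤ x → (x : ℝ) ≤ Real.exp (c * r) → ∀ i ∈ Λ x,
        ∀ Y : F i, (D i : F i) * Y ^ 2 ≠ Polynomial.aeval ((u i : F i) / (v i : F i)) (h i) + (m : F i)) : ℝ) ≤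
        1 / (y : ℝ) ^ A * (K.choose r : ℝ) := by
  classical
  obtain ⟨c, hc, y₀, hl⟩ := Pool.Agent.X22.NS.nonsquare_law b hb n₀ η hη A A
  refine ⟨c, hc, y₀ + 2, fun K r y hrK hy N hN g hg κ F iF iN h u v D Λ hΛ hn hG => ?_⟩
  obtain ⟨S, hS⟩ : ∃ S : ∀ i, ℕ → Finset (HeightOneSpectrum (𝓞 (F i))), S = fun i x =>
      (pr (F i) x).filter (fun w => (Ideal.absNorm w.asIdeal).Prime ∧ 2 * v i * D i ∉ w.asIdeal) := ⟨_, rfl⟩
  have hSc : ∀ i x, (S i x).card = unitPlaces x (2 * v i * D i) := by
    intro i x
    unfold unitPlaces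
    rw [← Set.ncard_coe_finset]
    congr 1
    ext w
    rw [hS, mem_coe, mem_filter, mem_pr, Set.mem_setOf_eq]
    constructor
    · rintro ⟨⟨h1, _⟩, h2, h3⟩
      exact ⟨h1, h2, h3⟩
    · rintro ⟨h1, h2, h3⟩
      refine ⟨⟨h1, fun h4 => h3 ?_⟩, h2, h3⟩
      rw [mul_assoc]
      exact w.asIdeal.mul_mem_right _ h4
  have h2 := hl K r y hrK (by omega) N hN g hg κ F (fun i => D i * v i ^ (h i).natDegree * hom (h i) (u i) (v i))
    (fun i => D i * (v i ^ (h i).natDegree) ^ 2) S Λ ?_ hΛ hn ?_
    (fun m => ∀ x : ℕ, y ≤ x → (x : ℝ) ≤ Real.exp (c * r) → ∀ i ∈ Λ x,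
        ∀ Y : F i, (D i : F i) * Y ^ 2 ≠ Polynomial.aeval ((u i : F i) / (v i : F i)) (h i) + (m : F i)) ?_
  · unfold exceptions
    exact h2
  · intro i x w hw
    rw [hS, mem_filter, mem_pr] at hw
    refine ⟨hw.1, hw.2.1, fun h4 => hw.2.2 ?_⟩
    have hpr := w.isPrime
    rcases hpr.mem_or_mem h4 with h5 | h5
    · exact w.asIdeal.mul_mem_left _ h5
    · have h6 := hpr.mem_of_pow_mem _ (hpr.mem_of_pow_mem _ h5)
      rw [mul_right_comm]
      exact w.asIdeal.mul_mem_left _ h6
  · intro x i hi
    rw [hSc]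
    exact hG x i hi
  · intro m hm x hyx hxr i hi Y hY
    have hx1 : (1 : ℝ) ≤ x := by exact_mod_cast (by omega : 1 ≤ x)
    have hpos : 0 < unitPlaces x (2 * v i * D i) := by
      have h1 := (Real.one_le_rpow hx1 hη.le).trans (hG x i hi)
      exact_mod_cast (by linarith : (0 : ℝ) < unitPlaces x (2 * v i * D i))
    have hv : v i ≠ 0 := by
      intro h0
      rw [← hSc, card_pos] at hpos
      obtain ⟨w, hw⟩ := hpos
      rw [hS, mem_filter, h0] at hw
      apply hw.2.2
      rw [mul_zero, zero_mul]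
      exact w.asIdeal.zero_mem
    have hv' : (v i : F i) ≠ 0 := by
      intro h0
      exact hv (by exact_mod_cast h0)
    have key : ((D i : F i) * (v i : F i) ^ (h i).natDegree * Y) ^ 2 =
        ((D i * v i ^ (h i).natDegree * hom (h i) (u i) (v i) + D i * (v i ^ (h i).natDegree) ^ 2 * (m : 𝓞 (F i)) : 𝓞 (F i)) : F i) := by
      have key0 : ((D i * v i ^ (h i).natDegree * hom (h i) (u i) (v i) + D i * (v i ^ (h i).natDegree) ^ 2 * (m : 𝓞 (F i)) : 𝓞 (F i)) : F i) =
          (D i : F i) * (v i : F i) ^ (h i).natDegree * (hom (h i) (u i) (v i) : F i) + (D i : F i) * ((v i : F i) ^ (h i).natDegree) ^ 2 * (m : F i) := by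
        simp only [RingOfIntegers.coe_eq_algebraMap, map_add, map_mul, map_pow, map_natCast]
      rw [key0, hom_eq _ _ _ hv']
      calc ((D i : F i) * (v i : F i) ^ (h i).natDegree * Y) ^ 2 =
            (D i : F i) * ((v i : F i) ^ (h i).natDegree) ^ 2 * ((D i : F i) * Y ^ 2) := by ring
        _ = _ := by
            rw [hY]
            ring
    have hint : IsIntegral ℤ ((D i : F i) * (v i : F i) ^ (h i).natDegree * Y) := by
      apply IsIntegral.of_pow (n := 2) (by norm_num)
      rw [key]
      exact RingOfIntegers.isIntegral_coe _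
    obtain ⟨z, hz⟩ : ∃ z : 𝓞 (F i), (z : F i) = (D i : F i) * (v i : F i) ^ (h i).natDegree * Y := ⟨⟨_, hint⟩, rfl⟩
    apply hm x hyx hxr i hi z
    rw [← hz] at key
    have key1 : ((z ^ 2 : 𝓞 (F i)) : F i) = (z : F i) ^ 2 := by
      simp only [RingOfIntegers.coe_eq_algebraMap, map_pow]
    rw [← key1] at key
    exact (RingOfIntegers.ext key).symm

end Pool.Agent.Results.MP_71c16a_nt.FewDigitCurvesNoPoints
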